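import Mathlib
import Pool.Agent.P.MP_d5661c_co.Ab.Main

set_option autoImplicit false

open Finset Pool.Agent.P.MP_d5661c_co.Ab

theorem Pool.Agent.Results.MP_d5661c_co.AbelianShift.result
    (p b : ℕ) (hp : p.Prime) (hp2 : p ≠ 2)
    (A : Type) [AddCommGroup A] [Finite A] (N : AddSubgroup A)
    (hN : Nat.card N = p ^ b) (hQ : Nat.card (A ⧸ N) = p ^ b)
    (s : A ⧸ N → A) (hs : ∀ x, (QuotientAddGroup.mk (s x) : A ⧸ N) = x)
    (H : A ⧸ N → A ⧸ N → N) (hH : ∀ x y, (H x y : A) = s (x + y) - s x - s y)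
    (hGH : ∀ x x', x ≠ x' → Function.Bijective fun y => H x y - H x' y) :
    (∀ a : A, p • a = 0) ∨
      (4 ≤ b ∧ ∀ e : ℕ, (∀ a : A, p ^ (e + 1) • a = 0) → (∃ a : A, p ^ e • a ≠ 0) →
        p ^ 3 ≤ Nat.card (Set.range fun a : A => p ^ e • a)) := by
  classical
  have := Fintype.ofFinite A
  have := Fintype.ofFinite (A ⧸ N)
  have hA : Fintype.card A = (p ^ b) ^ 2 := by
    rw [← Nat.card_eq_fintype_card, AddSubgroup.card_eq_card_quotient_mul_card_addSubgroup N,
      hN, hQ, sq]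
  have inj : Function.Injective s := fun x y e => by rw [← hs x, e, hs]
  have h : RDS N s (p ^ b) := by
    refine ⟨hA, (cd_eq N).trans hN, by rw [← Nat.card_eq_fintype_card, hQ], inj, fun g hg => ?_⟩
    have hm : ∀ μ : (A ⧸ N) × (A ⧸ N), s μ.1 - s μ.2 = g →
        μ.1 = QuotientAddGroup.mk g + μ.2 := fun μ e => by
      rw [← e, QuotientAddGroup.mk_sub, hs, hs, sub_add_cancel]
    split_ifs with e
    · refine card_eq_zero.2 (filter_eq_empty_iff.2 fun μ _ e2 => hg ?_)
      have := hm μ e2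
      rw [(QuotientAddGroup.eq_zero_iff g).2 e, zero_add] at this
      rw [← e2, this, sub_self]
    · have hb := hGH (QuotientAddGroup.mk g) 0 (mt (QuotientAddGroup.eq_zero_iff g).1 e)
      have hv : ∀ y, ((H (QuotientAddGroup.mk g) y - H 0 y : N) : A) =
          s (QuotientAddGroup.mk g + y) - s y - s (QuotientAddGroup.mk g) + s 0 := fun y => by
        rw [AddSubgroup.coe_sub, hH, hH, zero_add]
        abel
      have hmem : g - s (QuotientAddGroup.mk g) + s 0 ∈ N := by
        rw [← QuotientAddGroup.eq_zero_iff, QuotientAddGroup.mk_add, QuotientAddGroup.mk_sub,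
          hs, hs, sub_self, add_zero]
      obtain ⟨y, hy⟩ := hb.2 ⟨_, hmem⟩
      have hy' := congrArg Subtype.val hy
      rw [hv, add_left_inj, sub_left_inj] at hy'
      refine card_eq_one.2 ⟨(QuotientAddGroup.mk g + y, y), ext fun μ => ?_⟩
      simp only [mem_filter, mem_univ, true_and, mem_singleton]
      refine ⟨fun e2 => ?_, fun e2 => by rw [e2]; exact hy'⟩
      have e3 := hm μ e2
      have e4 : μ.2 = y := hb.1 (Subtype.ext (by rw [hv, hv, hy', ← e3, e2]))
      exact Prod.ext (e4 ▸ e3) e4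
  by_cases h0 : ∀ a : A, p • a = 0
  · exact Or.inl h0
  have top : ∀ e : ℕ, (∀ a : A, p ^ (e + 1) • a = 0) → (∃ a : A, p ^ e • a ≠ 0) →
      p ^ 3 ≤ Nat.card (Set.range fun a : A => p ^ e • a) ∧
        Nat.card (Set.range fun a : A => p ^ e • a) < p ^ b := by
    rintro e he ⟨a, ha⟩
    have hk : 1 ≤ e := by
      by_contra c
      obtain rfl : e = 0 := by omega
      exact h0 (by simpa using he)
    have := h.top hp hp2 hk rfl he (Z := (nsmulAddMonoidHom (p ^ e) : A →+ A).range)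
      (W := (nsmulAddMonoidHom (p ^ e) : A →+ A).ker) (fun _ => Iff.rfl) (fun _ => Iff.rfl)
      (fun c => ha (by
        rw [cd_eq, AddSubgroup.card_eq_one] at c
        exact AddSubgroup.mem_bot.1 (c ▸ ⟨a, rfl⟩)))
    rwa [cd_eq] at this
  refine Or.inr ⟨?_, fun e h1 h2 => (top e h1 h2).1⟩
  have ex : ∃ e : ℕ, ∀ a : A, p ^ (e + 1) • a = 0 := ⟨b * 2, fun a => by
    rw [pow_succ', mul_smul, pow_mul, ← hA, card_nsmul_eq_zero, smul_zero]⟩
  have h1 := top _ (Nat.find_spec ex) (by
    by_contra c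
    push Not at c
    rcases hf : Nat.find ex with _ | f
    · exact h0 (by simpa [hf] using Nat.find_spec ex)
    · exact Nat.find_min ex (show f < Nat.find ex by omega) (by rwa [hf] at c))
  exact (Nat.pow_lt_pow_iff_right hp.one_lt).1 (h1.1.trans_lt h1.2)
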