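import Mathlib
import Pool.Agent.P.MP_d5661c_co.Flo.Main

set_option autoImplicit false

namespace Pool.Agent.Results.MP_d5661c_co.CyclicPrime

/-- A generalized Hadamard matrix `GH(s, 1)` over a cyclic group of order `s ≥ 2` exists only
if `s` is prime. -/
theorem result (G : Type*) [Group G] [Finite G] [IsCyclic G] (s : ℕ) (hs : Nat.card G = s)
    (h2 : 2 ≤ s) (H : Fin s → Fin s → G)
    (hH : ∀ i i', i ≠ i' → Function.Bijective fun j => H i j * (H i' j)⁻¹) : s.Prime :=
  Pool.Agent.P.MP_d5661c_co.Flo.cyclic_prime G s hs h2 H hH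

end Pool.Agent.Results.MP_d5661c_co.CyclicPrime
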