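import Mathlib
import Pool.Agent.P.MP_d5661c_co.Syl

set_option autoImplicit false

namespace Pool.Agent.Results.MP_d5661c_co.CyclicSylow

/-- Let `H` be a generalized Hadamard matrix `GH(s, μ)` of size `n = μ s` over a finite group `G`
of order `s`. If `G` has an element of order `p ^ b`, `b ≥ 2`, and `p ^ b` is the exact power of
the prime `p` dividing `n`, then `2 p ^ b` divides `n` (so `p` is odd and `n` is even). -/
theorem result (G : Type*) [Group G] [Finite G] (μ n : ℕ) (hn : n = μ * Nat.card G)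
    (H : Fin n → Fin n → G)
    (hH : ∀ i i', i ≠ i' → ∀ g : G, Nat.card {j // H i j * (H i' j)⁻¹ = g} = μ)
    (p b : ℕ) (hp : p.Prime) (hb : 2 ≤ b) (g : G) (hg : orderOf g = p ^ b)
    (hmax : ¬ p ^ (b + 1) ∣ n) : 2 * p ^ b ∣ n :=
  Pool.Agent.P.MP_d5661c_co.Syl.two_mul_dvd' G μ n hn H hH p b hp hb g hg hmax

end Pool.Agent.Results.MP_d5661c_co.CyclicSylow
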